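import Pool.Agent.Lib.CDET.Defs
import Pool.Agent.Lib.CDEN.Final

/-! One-turn pushdown automata (MP_cde0c0_lc): the numbers of transitions. -/

set_option autoImplicit false

namespace CDET

theorem numTrans_ext {n k : ℕ} (st : Set (Fin n)) (step : Fin n → Fin k ⊕ Fin 2 → Fin n → Prop) :
    CDEN.numTrans (ext st step) ≤
      {τ : Fin n × (Fin k ⊕ Fin 2) × Fin n | step τ.1 τ.2.1 τ.2.2}.ncard + 2 * n := by
  classical
  let g : (Fin (n + n)) × (Fin (k + 2 + 2)) × (Fin (n + n)) →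
      (Fin n ⊕ Fin n) × ((Fin k ⊕ Fin 2) ⊕ Fin 2) × (Fin n ⊕ Fin n) :=
    fun τ => (finSumFinEquiv.symm τ.1, lc k τ.2.1, finSumFinEquiv.symm τ.2.2)
  have hg : Function.Injective g := by
    rintro ⟨a, b, c⟩ ⟨a', b', c'⟩ h
    simp only [g, Prod.mk.injEq, EmbeddingLike.apply_eq_iff_eq] at h
    obtain ⟨h1, h2, h3⟩ := h
    rw [h1, h2, h3]
  let S0 : Set (Fin n × (Fin k ⊕ Fin 2) × Fin n) := {τ | step τ.1 τ.2.1 τ.2.2}
  let A1 : Set ((Fin n ⊕ Fin n) × ((Fin k ⊕ Fin 2) ⊕ Fin 2) × (Fin n ⊕ Fin n)) :=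
    (fun τ : Fin n × (Fin k ⊕ Fin 2) × Fin n => (Sum.inl τ.1, Sum.inl τ.2.1, Sum.inl τ.2.2)) '' S0
  let A2 : Set ((Fin n ⊕ Fin n) × ((Fin k ⊕ Fin 2) ⊕ Fin 2) × (Fin n ⊕ Fin n)) :=
    (fun p : Fin n => (Sum.inl p, Sum.inr 0, Sum.inr p)) '' Set.univ
  let A3 : Set ((Fin n ⊕ Fin n) × ((Fin k ⊕ Fin 2) ⊕ Fin 2) × (Fin n ⊕ Fin n)) :=
    (fun p : Fin n => (Sum.inr p, Sum.inr 1, Sum.inr ⟨p.val - 1, by omega⟩)) '' Set.univ
  have h1 : CDEN.numTrans (ext st step) =
      (g '' CDEN.trans (ext st step)).ncard := (Set.ncard_image_of_injective _ hg).symm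
  have h2 : g '' CDEN.trans (ext st step) ⊆ A1 ∪ A2 ∪ A3 := by
    rintro _ ⟨⟨s, a, s'⟩, hτ, rfl⟩
    have hx : xstep step (finSumFinEquiv.symm s) (lc k a) (finSumFinEquiv.symm s') := hτ
    show (finSumFinEquiv.symm s, lc k a, finSumFinEquiv.symm s') ∈ A1 ∪ A2 ∪ A3
    generalize finSumFinEquiv.symm s = u at hx ⊢
    generalize finSumFinEquiv.symm s' = v at hx ⊢
    generalize lc k a = b at hx ⊢
    rcases u with p | p <;> rcases b with c | i <;> rcases v with q | q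
    · exact Or.inl (Or.inl ⟨(p, c, q), hx, rfl⟩)
    · exact absurd hx (by simp [xstep])
    · exact absurd hx (by simp [xstep])
    · obtain ⟨h, h'⟩ : i = 0 ∧ p = q := hx
      subst h
      subst h'
      exact Or.inl (Or.inr ⟨p, trivial, rfl⟩)
    · exact absurd hx (by simp [xstep])
    · exact absurd hx (by simp [xstep])
    · exact absurd hx (by simp [xstep])
    · obtain ⟨h, h'⟩ : i = 1 ∧ (p : ℕ) = q + 1 := hx
      subst h
      refine Or.inr ⟨p, trivial, ?_⟩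
      have : (⟨p.val - 1, by omega⟩ : Fin n) = q := by
        apply Fin.ext
        show p.val - 1 = q.val
        omega
      simp only [this]
  have h3 : A1.ncard ≤ S0.ncard := Set.ncard_image_le (Set.toFinite _)
  have h4 : A2.ncard ≤ n := by
    refine (Set.ncard_image_le (Set.toFinite _)).trans ?_
    rw [Set.ncard_univ, Nat.card_eq_fintype_card, Fintype.card_fin]
  have h5 : A3.ncard ≤ n := by
    refine (Set.ncard_image_le (Set.toFinite _)).trans ?_
    rw [Set.ncard_univ, Nat.card_eq_fintype_card, Fintype.card_fin]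
  rw [h1]
  refine (Set.ncard_le_ncard h2 (Set.toFinite _)).trans ?_
  refine (Set.ncard_union_le _ _).trans ?_
  have h6 := Set.ncard_union_le A1 A2
  have h7 : S0.ncard = {τ : Fin n × (Fin k ⊕ Fin 2) × Fin n | step τ.1 τ.2.1 τ.2.2}.ncard := rfl
  omega

theorem card_stepA {S : Type} {n k : ℕ} (M : PDA S (Fin k) (Fin n)) :
    {τ : Fin n × (Fin k ⊕ Fin 2) × Fin n | stepA M τ.1 τ.2.1 τ.2.2}.ncard ≤ size M + n := by
  classical
  let P : Set (Fin n × Fin k × Fin n) := {τ | ∃ a, M.push τ.1 a τ.2.1 τ.2.2}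
  let N : Set (Fin n × Fin n) := {τ | ∃ a, M.neutral τ.1 a τ.2}
  let A1 : Set (Fin n × (Fin k ⊕ Fin 2) × Fin n) := (fun τ => (τ.1, Sum.inl τ.2.1, τ.2.2)) '' P
  let A2 : Set (Fin n × (Fin k ⊕ Fin 2) × Fin n) := (fun τ => (τ.1, Sum.inr 0, τ.2)) '' N
  let A3 : Set (Fin n × (Fin k ⊕ Fin 2) × Fin n) :=
    (fun p : Fin n => (p, Sum.inr 1, p)) '' Set.univ
  have h2 : {τ : Fin n × (Fin k ⊕ Fin 2) × Fin n | stepA M τ.1 τ.2.1 τ.2.2} ⊆ A1 ∪ A2 ∪ A3 := by
    rintro ⟨p, c, q⟩ h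
    rcases c with c | i
    · exact Or.inl (Or.inl ⟨(p, c, q), h, rfl⟩)
    · by_cases hi : i = 0
      · subst hi
        have h' : ∃ a, M.neutral p a q := by simpa [stepA] using h
        exact Or.inl (Or.inr ⟨(p, q), h', rfl⟩)
      · have h' : p = q := by simpa [stepA, hi] using h
        have hi' : i = 1 := by omega
        subst h'
        subst hi'
        exact Or.inr ⟨p, trivial, rfl⟩
  have h3 : A1.ncard ≤ P.ncard := Set.ncard_image_le (Set.toFinite _)
  have h4 : A2.ncard ≤ N.ncard := Set.ncard_image_le (Set.toFinite _)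
  have h5 : A3.ncard ≤ n := by
    refine (Set.ncard_image_le (Set.toFinite _)).trans ?_
    rw [Set.ncard_univ, Nat.card_eq_fintype_card, Fintype.card_fin]
  refine (Set.ncard_le_ncard h2 (Set.toFinite _)).trans ?_
  refine (Set.ncard_union_le _ _).trans ?_
  have h6 := Set.ncard_union_le A1 A2
  have h7 : P.ncard + N.ncard ≤ size M := by
    unfold size
    have : P.ncard = {τ : Fin n × Fin k × Fin n | ∃ a, M.push τ.1 a τ.2.1 τ.2.2}.ncard := rfl
    have : N.ncard = {τ : Fin n × Fin n | ∃ a, M.neutral τ.1 a τ.2}.ncard := rfl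
    omega
  omega

theorem card_stepB {S : Type} {n k : ℕ} (M : PDA S (Fin k) (Fin n)) :
    {τ : Fin n × (Fin k ⊕ Fin 2) × Fin n | stepB M τ.1 τ.2.1 τ.2.2}.ncard ≤ size M + n := by
  classical
  let P : Set (Fin n × Fin k × Fin n) := {τ | ∃ a, M.pop τ.1 a τ.2.1 τ.2.2}
  let N : Set (Fin n × Fin n) := {τ | ∃ a, M.neutral τ.1 a τ.2}
  let A1 : Set (Fin n × (Fin k ⊕ Fin 2) × Fin n) := (fun τ => (τ.2.2, Sum.inl τ.2.1, τ.1)) '' P
  let A2 : Set (Fin n × (Fin k ⊕ Fin 2) × Fin n) := (fun τ => (τ.2, Sum.inr 1, τ.1)) '' N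
  let A3 : Set (Fin n × (Fin k ⊕ Fin 2) × Fin n) :=
    (fun p : Fin n => (p, Sum.inr 0, p)) '' Set.univ
  have h2 : {τ : Fin n × (Fin k ⊕ Fin 2) × Fin n | stepB M τ.1 τ.2.1 τ.2.2} ⊆ A1 ∪ A2 ∪ A3 := by
    rintro ⟨p, c, q⟩ h
    rcases c with c | i
    · exact Or.inl (Or.inl ⟨(q, c, p), h, rfl⟩)
    · by_cases hi : i = 0
      · subst hi
        have h' : p = q := by simpa [stepB] using h
        subst h'
        exact Or.inr ⟨p, trivial, rfl⟩
      · have h' : ∃ a, M.neutral q a p := by simpa [stepB, hi] using h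
        have hi' : i = 1 := by omega
        subst hi'
        exact Or.inl (Or.inr ⟨(q, p), h', rfl⟩)
  have h3 : A1.ncard ≤ P.ncard := Set.ncard_image_le (Set.toFinite _)
  have h4 : A2.ncard ≤ N.ncard := Set.ncard_image_le (Set.toFinite _)
  have h5 : A3.ncard ≤ n := by
    refine (Set.ncard_image_le (Set.toFinite _)).trans ?_
    rw [Set.ncard_univ, Nat.card_eq_fintype_card, Fintype.card_fin]
  refine (Set.ncard_le_ncard h2 (Set.toFinite _)).trans ?_
  refine (Set.ncard_union_le _ _).trans ?_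
  have h6 := Set.ncard_union_le A1 A2
  have h7 : P.ncard + N.ncard ≤ size M := by
    unfold size
    have : P.ncard = {τ : Fin n × Fin k × Fin n | ∃ a, M.pop τ.1 a τ.2.1 τ.2.2}.ncard := rfl
    have : N.ncard = {τ : Fin n × Fin n | ∃ a, M.neutral τ.1 a τ.2}.ncard := rfl
    omega
  omega

theorem numTrans_autA {S : Type} {n k : ℕ} (M : PDA S (Fin k) (Fin n)) :
    CDEN.numTrans (autA M) ≤ size M + 3 * n := by
  have h1 := numTrans_ext M.start (stepA M)
  have h2 := card_stepA M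
  have h3 : CDEN.numTrans (autA M) = CDEN.numTrans (ext M.start (stepA M)) := rfl
  omega

theorem numTrans_autB {S : Type} {n k : ℕ} (M : PDA S (Fin k) (Fin n)) :
    CDEN.numTrans (autB M) ≤ size M + 3 * n := by
  have h1 := numTrans_ext M.accept (stepB M)
  have h2 := card_stepB M
  have h3 : CDEN.numTrans (autB M) = CDEN.numTrans (ext M.accept (stepB M)) := rfl
  omega

end CDET
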