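import Mathlib

/-! One-turn pushdown automata and two nondeterministic automata (MP_cde0c0_lc): definitions. -/

set_option autoImplicit false

namespace CDET

/-- A pushdown automaton with input letters `S`, stack letters `Γ` and states `Q`. A transition reads an input
letter or nothing, and pushes a stack letter, or pops a stack letter, or does not change the stack. -/
structure PDA (S Γ Q : Type) where
  start : Set Q
  accept : Set Q
  push : Q → Option S → Γ → Q → Prop
  pop : Q → Option S → Γ → Q → Prop
  neutral : Q → Option S → Q → Prop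

variable {S Γ Q : Type}

/-- `Up M w p s`: from an initial state with empty stack `M` can get, reading the word `w` and without any pop,
to the state `p` and the stack `s` (top first) -/
inductive Up (M : PDA S Γ Q) : List S → Q → List Γ → Prop
  | start (p : Q) (h : p ∈ M.start) : Up M [] p []
  | push (w : List S) (p q : Q) (a : Option S) (c : Γ) (s : List Γ) (h : Up M w p s)
      (hm : M.push p a c q) : Up M (w ++ a.toList) q (c :: s)
  | neutral (w : List S) (p q : Q) (a : Option S) (s : List Γ) (h : Up M w p s)
      (hm : M.neutral p a q) : Up M (w ++ a.toList) q s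

/-- the same, with runs in which no push comes after a pop -/
inductive Run (M : PDA S Γ Q) : List S → Q → List Γ → Prop
  | up (w : List S) (p : Q) (s : List Γ) (h : Up M w p s) : Run M w p s
  | pop (w : List S) (p q : Q) (a : Option S) (c : Γ) (s : List Γ) (h : Run M w p (c :: s))
      (hm : M.pop p a c q) : Run M (w ++ a.toList) q s
  | neutral (w : List S) (p q : Q) (a : Option S) (s : List Γ) (h : Run M w p s)
      (hm : M.neutral p a q) : Run M (w ++ a.toList) q s

/-- `w` is accepted (accepting state, empty stack) by a run in which no push comes after a pop -/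
def Accepts (M : PDA S Γ Q) (w : List S) : Prop := ∃ f ∈ M.accept, Run M w f []

/-- the number of transitions (transitions that differ only in the input are counted once) -/
noncomputable def size (M : PDA S Γ Q) : ℕ :=
  {τ : Q × Γ × Q | ∃ a, M.push τ.1 a τ.2.1 τ.2.2}.ncard
    + {τ : Q × Γ × Q | ∃ a, M.pop τ.1 a τ.2.1 τ.2.2}.ncard
    + {τ : Q × Q | ∃ a, M.neutral τ.1 a τ.2}.ncard

/-- steps of the first automaton: `Sum.inr 0` is a neutral move of it, `Sum.inr 1` one of the other -/
def stepA (M : PDA S Γ Q) (p : Q) : Γ ⊕ Fin 2 → Q → Prop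
  | Sum.inl c, q => ∃ a, M.push p a c q
  | Sum.inr i, q => if i = 0 then ∃ a, M.neutral p a q else p = q

/-- steps of the second automaton, which reads a run backwards -/
def stepB (M : PDA S Γ Q) (p : Q) : Γ ⊕ Fin 2 → Q → Prop
  | Sum.inl c, q => ∃ a, M.pop q a c p
  | Sum.inr i, q => if i = 0 then p = q else ∃ a, M.neutral q a p

/-- steps of the extension: `Sum.inr 0` leads from the state `i` to `i` on the path, `Sum.inr 1` goes down the
path -/
def xstep {n k : ℕ} (step : Fin n → Fin k ⊕ Fin 2 → Fin n → Prop) :
    Fin n ⊕ Fin n → (Fin k ⊕ Fin 2) ⊕ Fin 2 → Fin n ⊕ Fin n → Prop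
  | Sum.inl p, Sum.inl c, Sum.inl q => step p c q
  | Sum.inl p, Sum.inr i, Sum.inr q => i = 0 ∧ p = q
  | Sum.inr p, Sum.inr i, Sum.inr q => i = 1 ∧ (p : ℕ) = q + 1
  | _, _, _ => False

/-- the code of the letters -/
def lc (k : ℕ) : Fin (k + 2 + 2) ≃ (Fin k ⊕ Fin 2) ⊕ Fin 2 :=
  finSumFinEquiv.symm.trans (Equiv.sumCongr finSumFinEquiv.symm (Equiv.refl _))

/-- the extended automaton -/
def ext {n k : ℕ} (st : Set (Fin n)) (step : Fin n → Fin k ⊕ Fin 2 → Fin n → Prop) :
    NFA (Fin (k + 2 + 2)) (Fin (n + n)) where
  step s a := {s' | xstep step (finSumFinEquiv.symm s) (lc k a) (finSumFinEquiv.symm s')}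
  start := {s | ∃ p ∈ st, finSumFinEquiv.symm s = Sum.inl p}
  accept := {s | ∃ p : Fin n, (p : ℕ) = 0 ∧ finSumFinEquiv.symm s = Sum.inr p}

/-- the first automaton -/
def autA {S : Type} {n k : ℕ} (M : PDA S (Fin k) (Fin n)) : NFA (Fin (k + 2 + 2)) (Fin (n + n)) :=
  ext M.start (stepA M)

/-- the second automaton -/
def autB {S : Type} {n k : ℕ} (M : PDA S (Fin k) (Fin n)) : NFA (Fin (k + 2 + 2)) (Fin (n + n)) :=
  ext M.accept (stepB M)

end CDET
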