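import Pool.Agent.Lib.CDET.Sem
import Pool.Agent.Lib.CDET.Count

/-! One-turn pushdown automata and two reversible automata (MP_cde0c0_lc). -/

set_option autoImplicit false

namespace CDET

/-- the reduction; each automaton depends only on its half of `M` -/
theorem reduction (k : ℕ) (S : Type) :
    ∃ A B : (n t : ℕ) → Set (Fin n) → (Fin n → Option S → Fin k → Fin n → Prop) →
        (Fin n → Option S → Fin n → Prop) →
        DFA Bool (Fin (2 * (3 * k + 20) * (12 * n + 2 * t + 3) + 1)),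
      ∀ n t (M : PDA S (Fin k) (Fin n)), size M ≤ t →
        CDER.Rev (A n t M.start M.push M.neutral) ∧ CDER.Rev (B n t M.accept M.pop M.neutral) ∧
        ((∃ w, Accepts M w) ↔ ∃ x, x ∈ (A n t M.start M.push M.neutral).accepts ∧
          x.reverse ∈ (B n t M.accept M.pop M.neutral).accepts) := by
  obtain ⟨F, G, H, R, h1, h2, h3, h4⟩ := CDEN.normalForm (k + 2 + 2)
  have e : ∀ n t : ℕ, CDEN.size (k + 2 + 2) (n + n) (t + 3 * n)
      = 2 * (3 * k + 20) * (12 * n + 2 * t + 3) + 1 := by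
    intro n t
    unfold CDEN.size
    ring
  refine ⟨fun n t st pu ne => (e n t) ▸ F (n + n) (t + 3 * n)
      (autA (⟨st, ∅, pu, fun _ _ _ _ => False, ne⟩ : PDA S (Fin k) (Fin n))),
    fun n t ac po ne => (e n t) ▸ R _ (H (n + n) (t + 3 * n)
      (autB (⟨∅, ac, fun _ _ _ _ => False, po, ne⟩ : PDA S (Fin k) (Fin n)))), ?_⟩
  intro n t M hM
  have eA : autA (⟨M.start, ∅, M.push, fun _ _ _ _ => False, M.neutral⟩ : PDA S (Fin k) (Fin n))
      = autA M := rfl
  have eB : autB (⟨∅, M.accept, fun _ _ _ _ => False, M.pop, M.neutral⟩ : PDA S (Fin k) (Fin n))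
      = autB M := rfl
  have hA : CDEN.numTrans (autA M) ≤ t + 3 * n := by
    have := numTrans_autA M
    omega
  have hB : CDEN.numTrans (autB M) ≤ t + 3 * n := by
    have := numTrans_autB M
    omega
  have hF := (h1 (n + n) (t + 3 * n) (autA M) hA).1
  have hH := (h1 (n + n) (t + 3 * n) (autB M) hB).2.2
  have hR := h3 _ _ hH
  have key : ∀ (N N' : ℕ) (E : N = N') (X Y : DFA Bool (Fin N)), CDER.Rev X → CDER.Rev Y →
      ((∃ w, Accepts M w) ↔ ∃ x, x ∈ X.accepts ∧ x.reverse ∈ Y.accepts) →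
      CDER.Rev (E ▸ X : DFA Bool (Fin N')) ∧ CDER.Rev (E ▸ Y : DFA Bool (Fin N')) ∧
      ((∃ w, Accepts M w) ↔ ∃ x, x ∈ (E ▸ X : DFA Bool (Fin N')).accepts ∧
        x.reverse ∈ (E ▸ Y : DFA Bool (Fin N')).accepts) := by
    intro N N' E X Y hX hY hXY
    subst E
    exact ⟨hX, hY, hXY⟩
  simp only [eA, eB]
  refine key _ _ (e n t) _ _ hF hR.1 ?_
  rw [meet, (h2 (n + n) (t + 3 * n) (n + n) (t + 3 * n) (autA M) (autB M) hA hB).2]
  constructor
  · rintro ⟨y, h5, h6⟩
    refine ⟨y, h5, ?_⟩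
    rw [hR.2, List.reverse_reverse]
    exact h6
  · rintro ⟨y, h5, h6⟩
    rw [hR.2, List.reverse_reverse] at h6
    exact ⟨y, h5, h6⟩

end CDET
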