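import Pool.Agent.Lib.CDET.Defs
import Pool.Agent.Lib.CDEN.Final

/-! One-turn pushdown automata (MP_cde0c0_lc): palindromes. -/

set_option autoImplicit false

namespace CDET

/-- the pushdown automaton which accepts the palindromes in `L(C)` -/
def palPDA {n k : ℕ} (C : NFA (Fin k) (Fin n)) : PDA (Fin k) (Fin k) (Fin (n + n)) where
  start := {p | ∃ s ∈ C.start, p = finSumFinEquiv (Sum.inl s)}
  accept := {p | ∃ f ∈ C.accept, p = finSumFinEquiv (Sum.inr f)}
  push p a c q := ∃ p' q' : Fin n, p = finSumFinEquiv (Sum.inl p') ∧ q = finSumFinEquiv (Sum.inl q') ∧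
    a = some c ∧ q' ∈ C.step p' c
  pop p a c q := ∃ p' q' : Fin n, p = finSumFinEquiv (Sum.inr p') ∧ q = finSumFinEquiv (Sum.inr q') ∧
    a = some c ∧ q' ∈ C.step p' c
  neutral p a q := ∃ p' q' : Fin n, p = finSumFinEquiv (Sum.inl p') ∧ q = finSumFinEquiv (Sum.inr q') ∧
    ((a = none ∧ p' = q') ∨ ∃ c, a = some c ∧ q' ∈ C.step p' c)

section

variable {n k : ℕ} {C : NFA (Fin k) (Fin n)}

theorem inl_ne_inr (p q : Fin n) :
    (finSumFinEquiv (Sum.inl p) : Fin (n + n)) ≠ finSumFinEquiv (Sum.inr q) := by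
  intro h
  have := finSumFinEquiv.injective h
  exact absurd this (by simp)

theorem inl_inj {p q : Fin n}
    (h : (finSumFinEquiv (Sum.inl p) : Fin (n + n)) = finSumFinEquiv (Sum.inl q)) : p = q := by
  have := finSumFinEquiv.injective h
  simpa using this

theorem inr_inj {p q : Fin n}
    (h : (finSumFinEquiv (Sum.inr p) : Fin (n + n)) = finSumFinEquiv (Sum.inr q)) : p = q := by
  have := finSumFinEquiv.injective h
  simpa using this

theorem eval_snoc {w : List (Fin k)} {p q : Fin n} {a : Fin k} (hp : p ∈ C.eval w)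
    (hq : q ∈ C.step p a) : q ∈ C.eval (w ++ [a]) := by
  rw [NFA.eval_append_singleton, NFA.mem_stepSet]
  exact ⟨p, hp, hq⟩

/-- what a run without pops has done -/
theorem up_inv {w : List (Fin k)} {p : Fin (n + n)} {st : List (Fin k)}
    (h : Up (palPDA C) w p st) :
    (∃ q : Fin n, p = finSumFinEquiv (Sum.inl q) ∧ st = w.reverse ∧ q ∈ C.eval w) ∨
    ∃ (q : Fin n) (u m v : List (Fin k)), p = finSumFinEquiv (Sum.inr q) ∧ m.length ≤ 1 ∧
      w = u ++ m ++ v ∧ u.reverse = v ++ st ∧ q ∈ C.eval w := by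
  induction h with
  | start p hp =>
    left
    obtain ⟨s, hs, hp⟩ := hp
    exact ⟨s, hp, rfl, hs⟩
  | push w p q a c st h hm ih =>
    obtain ⟨p', q', hp, hq, ha, hpq⟩ := hm
    rcases ih with ⟨r, hr, hst, hev⟩ | ⟨r, _, _, _, hr, _⟩
    · left
      have e : r = p' := inl_inj (hr.symm.trans hp)
      subst e
      refine ⟨q', hq, ?_, ?_⟩
      · rw [ha, hst]
        simp
      · rw [ha]
        exact eval_snoc hev hpq
    · exact absurd (hp.symm.trans hr) (inl_ne_inr _ _)
  | neutral w p q a st h hm ih =>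
    obtain ⟨p', q', hp, hq, hc⟩ := hm
    rcases ih with ⟨r, hr, hst, hev⟩ | ⟨r, _, _, _, hr, _⟩
    · right
      have e : r = p' := inl_inj (hr.symm.trans hp)
      subst e
      rcases hc with ⟨ha, hpq⟩ | ⟨c, ha, hpq⟩
      · subst hpq
        refine ⟨r, w, [], [], hq, by simp, ?_, ?_, ?_⟩
        · rw [ha]; simp
        · rw [hst]; rfl
        · rw [ha]; simpa using hev
      · refine ⟨q', w, [c], [], hq, by simp, ?_, ?_, ?_⟩
        · rw [ha]; simp
        · rw [hst]; rfl
        · rw [ha]; exact eval_snoc hev hpq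
    · exact absurd (hp.symm.trans hr) (inl_ne_inr _ _)

/-- what a run without a push after a pop has done -/
theorem run_inv {w : List (Fin k)} {p : Fin (n + n)} {st : List (Fin k)}
    (h : Run (palPDA C) w p st) :
    (∃ q : Fin n, p = finSumFinEquiv (Sum.inl q) ∧ st = w.reverse ∧ q ∈ C.eval w) ∨
    ∃ (q : Fin n) (u m v : List (Fin k)), p = finSumFinEquiv (Sum.inr q) ∧ m.length ≤ 1 ∧
      w = u ++ m ++ v ∧ u.reverse = v ++ st ∧ q ∈ C.eval w := by
  induction h with
  | up w p st h => exact up_inv h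
  | pop w p q a c st h hm ih =>
    obtain ⟨p', q', hp, hq, ha, hpq⟩ := hm
    rcases ih with ⟨r, hr, _, _⟩ | ⟨r, u, m, v, hr, hm1, hw, hu, hev⟩
    · exact absurd (hr.symm.trans hp) (inl_ne_inr _ _)
    · right
      have e : r = p' := inr_inj (hr.symm.trans hp)
      subst e
      refine ⟨q', u, m, v ++ [c], hq, hm1, ?_, ?_, ?_⟩
      · rw [ha, hw]
        simp
      · rw [hu]
        simp
      · rw [ha]
        exact eval_snoc hev hpq
  | neutral w p q a st h hm ih =>
    obtain ⟨p', q', hp, hq, hc⟩ := hm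
    rcases ih with ⟨r, hr, hst, hev⟩ | ⟨r, _, _, _, hr, _⟩
    · right
      have e : r = p' := inl_inj (hr.symm.trans hp)
      subst e
      rcases hc with ⟨ha, hpq⟩ | ⟨c, ha, hpq⟩
      · subst hpq
        refine ⟨r, w, [], [], hq, by simp, ?_, ?_, ?_⟩
        · rw [ha]; simp
        · rw [hst]; rfl
        · rw [ha]; simpa using hev
      · refine ⟨q', w, [c], [], hq, by simp, ?_, ?_, ?_⟩
        · rw [ha]; simp
        · rw [hst]; rfl
        · rw [ha]; exact eval_snoc hev hpq
    · exact absurd (hp.symm.trans hr) (inl_ne_inr _ _)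

theorem up_of (u : List (Fin k)) : ∀ q : Fin n, q ∈ C.eval u →
    Up (palPDA C) u (finSumFinEquiv (Sum.inl q)) u.reverse := by
  induction u using List.reverseRecOn with
  | nil =>
    intro q h
    have h1 : q ∈ C.start := h
    exact Up.start _ ⟨q, h1, rfl⟩
  | append_singleton u a ih =>
    intro q h
    rw [NFA.eval_append_singleton, NFA.mem_stepSet] at h
    obtain ⟨p, hp, hq⟩ := h
    have h1 := Up.push (M := palPDA C) u (finSumFinEquiv (Sum.inl p)) (finSumFinEquiv (Sum.inl q))
      (some a) a u.reverse (ih p hp) ⟨p, q, rfl, rfl, rfl, hq⟩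
    have h2 : (u ++ [a]).reverse = a :: u.reverse := by simp
    rw [h2]
    exact h1

theorem mid_of (u m : List (Fin k)) (hm : m.length ≤ 1) (q : Fin n)
    (h : q ∈ C.eval (u ++ m)) :
    Run (palPDA C) (u ++ m) (finSumFinEquiv (Sum.inr q)) u.reverse := by
  match m, hm with
  | [], _ =>
    have h0 : q ∈ C.eval u := by simpa using h
    have h1 := Run.neutral (M := palPDA C) u (finSumFinEquiv (Sum.inl q))
      (finSumFinEquiv (Sum.inr q)) none u.reverse (Run.up _ _ _ (up_of u q h0))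
      ⟨q, q, rfl, rfl, Or.inl ⟨rfl, rfl⟩⟩
    exact h1
  | [a], _ =>
    rw [NFA.eval_append_singleton, NFA.mem_stepSet] at h
    obtain ⟨p, hp, hq⟩ := h
    exact Run.neutral (M := palPDA C) u (finSumFinEquiv (Sum.inl p))
      (finSumFinEquiv (Sum.inr q)) (some a) u.reverse (Run.up _ _ _ (up_of u p hp))
      ⟨p, q, rfl, rfl, Or.inr ⟨a, rfl, hq⟩⟩
  | a :: b :: m, hm => simp at hm

theorem down_of (u m : List (Fin k)) (hm : m.length ≤ 1) (v : List (Fin k)) :
    ∀ (q : Fin n) (st : List (Fin k)), q ∈ C.eval (u ++ m ++ v) → u.reverse = v ++ st →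
      Run (palPDA C) (u ++ m ++ v) (finSumFinEquiv (Sum.inr q)) st := by
  induction v using List.reverseRecOn with
  | nil =>
    intro q st h hu
    have h1 : q ∈ C.eval (u ++ m) := by simpa using h
    have h2 := mid_of u m hm q h1
    have h3 : u.reverse = st := hu
    rw [h3] at h2
    simpa using h2
  | append_singleton v a ih =>
    intro q st h hu
    rw [← List.append_assoc, NFA.eval_append_singleton, NFA.mem_stepSet] at h
    obtain ⟨p, hp, hq⟩ := h
    have h1 := ih p (a :: st) hp (by rw [hu]; simp)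
    have h2 := Run.pop (M := palPDA C) (u ++ m ++ v) (finSumFinEquiv (Sum.inr p))
      (finSumFinEquiv (Sum.inr q)) (some a) a st h1 ⟨p, q, rfl, rfl, rfl, hq⟩
    rw [← List.append_assoc]
    exact h2

theorem palindrome_split {α : Type} {w : List α} (h : w.reverse = w) :
    ∃ u m : List α, m.length ≤ 1 ∧ w = u ++ m ++ u.reverse := by
  have hp : List.Palindrome w := List.Palindrome.of_reverse_eq h
  clear h
  induction hp with
  | nil => exact ⟨[], [], by simp, rfl⟩
  | singleton a => exact ⟨[], [a], by simp, rfl⟩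
  | cons_concat x _ ih =>
    obtain ⟨u, m, hm, hw⟩ := ih
    exact ⟨x :: u, m, hm, by rw [hw]; simp⟩

/-- the automaton accepts the palindromes in `L(C)` -/
theorem palPDA_accepts (w : List (Fin k)) :
    Accepts (palPDA C) w ↔ w ∈ C.accepts ∧ w.reverse = w := by
  constructor
  · rintro ⟨f, ⟨g, hg, hf⟩, h⟩
    rcases run_inv h with ⟨r, hr, _, _⟩ | ⟨r, u, m, v, hr, hm, hw, hu, hev⟩
    · exact absurd (hr.symm.trans hf) (inl_ne_inr _ _)
    · have e : r = g := inr_inj (hr.symm.trans hf)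
      subst e
      refine ⟨⟨r, hg, hev⟩, ?_⟩
      have h1 : u.reverse = v := by simpa using hu
      have h2 : m.reverse = m := by
        match m, hm with
        | [], _ => rfl
        | [a], _ => rfl
        | a :: b :: m, hm => simp at hm
      rw [hw, ← h1]
      simp [h2]
  · rintro ⟨⟨f, hf, hev⟩, hw⟩
    obtain ⟨u, m, hm, h⟩ := palindrome_split hw
    subst h
    exact ⟨_, ⟨f, hf, rfl⟩, down_of u m hm u.reverse f [] hev (by simp)⟩

theorem palPDA_size (C : NFA (Fin k) (Fin n)) :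
    size (palPDA C) ≤ 3 * CDEN.numTrans C + n := by
  classical
  let T : Set (Fin n × Fin k × Fin n) := CDEN.trans C
  have hT : T.ncard = CDEN.numTrans C := rfl
  have h1 : {τ : Fin (n + n) × Fin k × Fin (n + n) |
      ∃ a, (palPDA C).push τ.1 a τ.2.1 τ.2.2}.ncard ≤ T.ncard := by
    refine (Set.ncard_le_ncard (t := (fun τ : Fin n × Fin k × Fin n =>
      ((finSumFinEquiv (Sum.inl τ.1) : Fin (n + n)), τ.2.1,
        (finSumFinEquiv (Sum.inl τ.2.2) : Fin (n + n)))) '' T) ?_ (Set.toFinite _)).trans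
      (Set.ncard_image_le (Set.toFinite _))
    rintro ⟨p, c, q⟩ ⟨a, p', q', hp, hq, _, h⟩
    exact ⟨(p', c, q'), h, by rw [show p = _ from hp, show q = _ from hq]⟩
  have h2 : {τ : Fin (n + n) × Fin k × Fin (n + n) |
      ∃ a, (palPDA C).pop τ.1 a τ.2.1 τ.2.2}.ncard ≤ T.ncard := by
    refine (Set.ncard_le_ncard (t := (fun τ : Fin n × Fin k × Fin n =>
      ((finSumFinEquiv (Sum.inr τ.1) : Fin (n + n)), τ.2.1,
        (finSumFinEquiv (Sum.inr τ.2.2) : Fin (n + n)))) '' T) ?_ (Set.toFinite _)).trans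
      (Set.ncard_image_le (Set.toFinite _))
    rintro ⟨p, c, q⟩ ⟨a, p', q', hp, hq, _, h⟩
    exact ⟨(p', c, q'), h, by rw [show p = _ from hp, show q = _ from hq]⟩
  have h3 : {τ : Fin (n + n) × Fin (n + n) | ∃ a, (palPDA C).neutral τ.1 a τ.2}.ncard ≤
      T.ncard + n := by
    let A1 : Set (Fin (n + n) × Fin (n + n)) := (fun τ : Fin n × Fin k × Fin n =>
      ((finSumFinEquiv (Sum.inl τ.1) : Fin (n + n)), (finSumFinEquiv (Sum.inr τ.2.2) : Fin (n + n)))) '' T
    let A2 : Set (Fin (n + n) × Fin (n + n)) := (fun p : Fin n =>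
      ((finSumFinEquiv (Sum.inl p) : Fin (n + n)), (finSumFinEquiv (Sum.inr p) : Fin (n + n)))) ''
        Set.univ
    have h4 : A1.ncard ≤ T.ncard := Set.ncard_image_le (Set.toFinite _)
    have h5 : A2.ncard ≤ n := by
      refine (Set.ncard_image_le (Set.toFinite _)).trans ?_
      rw [Set.ncard_univ, Nat.card_eq_fintype_card, Fintype.card_fin]
    refine (Set.ncard_le_ncard (t := A1 ∪ A2) ?_ (Set.toFinite _)).trans
      ((Set.ncard_union_le _ _).trans (by omega))
    rintro ⟨p, q⟩ ⟨a, p', q', hp, hq, ⟨_, h⟩ | ⟨c, _, h⟩⟩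
    · subst h
      exact Or.inr ⟨p', trivial, by rw [show p = _ from hp, show q = _ from hq]⟩
    · exact Or.inl ⟨(p', c, q'), h, by rw [show p = _ from hp, show q = _ from hq]⟩
  unfold size
  omega

end

end CDET
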