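import Pool.Agent.Lib.CDET.Defs

/-! One-turn pushdown automata: the two automata meet iff something is accepted (MP_cde0c0_lc). -/

set_option autoImplicit false

namespace CDET

variable {S : Type} {n k : ℕ}

/-- from `(p, s)` one can get to an accepting state with empty stack without a push -/
inductive Fall {Γ Q : Type} (M : PDA S Γ Q) : Q → List Γ → Prop
  | done (f : Q) (h : f ∈ M.accept) : Fall M f []
  | pop (p q : Q) (a : Option S) (c : Γ) (s : List Γ) (hm : M.pop p a c q) (h : Fall M q s) :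
      Fall M p (c :: s)
  | neutral (p q : Q) (a : Option S) (s : List Γ) (hm : M.neutral p a q) (h : Fall M q s) :
      Fall M p s

theorem run_of_fall {Γ Q : Type} {M : PDA S Γ Q} {p : Q} {s : List Γ} (hf : Fall M p s) :
    ∀ w, Run M w p s → ∃ w', Accepts M w' := by
  induction hf with
  | done f h => exact fun w hw => ⟨w, f, h, hw⟩
  | pop p q a c s hm h ih => exact fun w hw => ih _ (Run.pop w p q a c s hw hm)
  | neutral p q a s hm h ih => exact fun w hw => ih _ (Run.neutral w p q a s hw hm)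

theorem fall_of_run {Γ Q : Type} {M : PDA S Γ Q} {w : List S} {p : Q} {s : List Γ}
    (hr : Run M w p s) : Fall M p s → ∃ (w' : List S) (q : Q) (s' : List Γ), Up M w' q s' ∧ Fall M q s' := by
  induction hr with
  | up w p s h => exact fun hf => ⟨w, p, s, h, hf⟩
  | pop w p q a c s h hm ih => exact fun hf => ih (Fall.pop p q a c s hm hf)
  | neutral w p q a s h hm ih => exact fun hf => ih (Fall.neutral p q a s hm hf)

theorem accepts_iff {Γ Q : Type} (M : PDA S Γ Q) :
    (∃ w, Accepts M w) ↔ ∃ (w : List S) (q : Q) (s : List Γ), Up M w q s ∧ Fall M q s := by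
  constructor
  · rintro ⟨w, f, hf, hr⟩
    exact fall_of_run hr (Fall.done f hf)
  · rintro ⟨w, q, s, hu, hf⟩
    exact run_of_fall hf w (Run.up w q s hu)

section ext

variable {st : Set (Fin n)} {step : Fin n → Fin k ⊕ Fin 2 → Fin n → Prop}

/-- the state `x` is reached by the word `y` -/
def At (st : Set (Fin n)) (step : Fin n → Fin k ⊕ Fin 2 → Fin n → Prop)
    (y : List (Fin (k + 2 + 2))) (x : Fin n ⊕ Fin n) : Prop :=
  finSumFinEquiv x ∈ (ext st step).eval y

theorem at_nil (x : Fin n ⊕ Fin n) : At st step [] x ↔ ∃ p ∈ st, x = Sum.inl p := by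
  simp [At, ext, NFA.eval_nil]

theorem at_snoc (y : List (Fin (k + 2 + 2))) (a : Fin (k + 2 + 2)) (x : Fin n ⊕ Fin n) :
    At st step (y ++ [a]) x ↔ ∃ x', At st step y x' ∧ xstep step x' (lc k a) x := by
  unfold At
  rw [NFA.eval_append_singleton, NFA.mem_stepSet]
  constructor
  · rintro ⟨s, hs, hx⟩
    refine ⟨finSumFinEquiv.symm s, ?_, ?_⟩
    · rw [Equiv.apply_symm_apply]
      exact hs
    · simpa [ext] using hx
  · rintro ⟨x', hx', hx⟩
    refine ⟨finSumFinEquiv x', hx', ?_⟩
    simpa [ext] using hx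

theorem at_inl (y : List (Fin (k + 2 + 2))) (a : Fin (k + 2 + 2)) (q : Fin n) :
    At st step (y ++ [a]) (Sum.inl q) ↔
      ∃ p c, At st step y (Sum.inl p) ∧ lc k a = Sum.inl c ∧ step p c q := by
  rw [at_snoc]
  constructor
  · rintro ⟨x', h1, h2⟩
    rcases x' with p | p
    · rcases h : lc k a with c | i
      · rw [h] at h2
        exact ⟨p, c, h1, rfl, h2⟩
      · rw [h] at h2
        exact h2.elim
    · rcases h : lc k a with c | i
      · rw [h] at h2
        exact h2.elim
      · rw [h] at h2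
        exact h2.elim
  · rintro ⟨p, c, h1, h2, h3⟩
    refine ⟨Sum.inl p, h1, ?_⟩
    rw [h2]
    exact h3

theorem at_inr (y : List (Fin (k + 2 + 2))) (a : Fin (k + 2 + 2)) (q : Fin n) :
    At st step (y ++ [a]) (Sum.inr q) ↔
      (lc k a = Sum.inr 0 ∧ At st step y (Sum.inl q)) ∨
      (lc k a = Sum.inr 1 ∧ ∃ p : Fin n, At st step y (Sum.inr p) ∧ (p : ℕ) = q + 1) := by
  rw [at_snoc]
  constructor
  · rintro ⟨x', h1, h2⟩
    rcases x' with p | p
    · rcases h : lc k a with c | i
      · rw [h] at h2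
        exact h2.elim
      · rw [h] at h2
        obtain ⟨h3, h4⟩ := h2
        subst h3
        subst h4
        exact Or.inl ⟨rfl, h1⟩
    · rcases h : lc k a with c | i
      · rw [h] at h2
        exact h2.elim
      · rw [h] at h2
        obtain ⟨h3, h4⟩ := h2
        subst h3
        exact Or.inr ⟨rfl, p, h1, h4⟩
  · rintro (⟨h1, h2⟩ | ⟨h1, p, h2, h3⟩)
    · refine ⟨Sum.inl q, h2, ?_⟩
      rw [h1]
      exact ⟨rfl, rfl⟩
    · refine ⟨Sum.inr p, h2, ?_⟩
      rw [h1]
      exact ⟨rfl, h3⟩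

theorem mem_accepts (y : List (Fin (k + 2 + 2))) :
    y ∈ (ext st step).accepts ↔ ∃ p : Fin n, (p : ℕ) = 0 ∧ At st step y (Sum.inr p) := by
  rw [NFA.mem_accepts]
  constructor
  · rintro ⟨s, ⟨p, hp, hs⟩, h⟩
    refine ⟨p, hp, ?_⟩
    unfold At
    rw [← hs, Equiv.apply_symm_apply]
    exact h
  · rintro ⟨p, hp, h⟩
    exact ⟨_, ⟨p, hp, by rw [Equiv.symm_apply_apply]⟩, h⟩

end ext

/-- down the path -/
theorem down {st st' : Set (Fin n)} {step step' : Fin n → Fin k ⊕ Fin 2 → Fin n → Prop} (i : ℕ) :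
    ∀ (y : List (Fin (k + 2 + 2))) (p : Fin n), (p : ℕ) = i → At st step y (Sum.inr p) →
      At st' step' y (Sum.inr p) →
      ∃ z, z ∈ (ext st step).accepts ∧ z ∈ (ext st' step').accepts := by
  induction i with
  | zero => exact fun y p hp h h' => ⟨y, (mem_accepts y).mpr ⟨p, hp, h⟩, (mem_accepts y).mpr ⟨p, hp, h'⟩⟩
  | succ i ih =>
    intro y p hp h h'
    have hi : i < n := by omega
    refine ih (y ++ [(lc k).symm (Sum.inr 1)]) ⟨i, hi⟩ rfl ?_ ?_
    · rw [at_inr]
      exact Or.inr ⟨by rw [Equiv.apply_symm_apply], p, h, hp⟩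
    · rw [at_inr]
      exact Or.inr ⟨by rw [Equiv.apply_symm_apply], p, h', hp⟩

theorem up_path {st st' : Set (Fin n)} {step step' : Fin n → Fin k ⊕ Fin 2 → Fin n → Prop}
    (y : List (Fin (k + 2 + 2))) : ∀ (c d : Fin n), At st step y (Sum.inr c) →
      At st' step' y (Sum.inr d) →
      ∃ x p q, At st step x (Sum.inl p) ∧ At st' step' x (Sum.inl q) ∧ (p : ℕ) + d = q + c := by
  induction y using List.reverseRecOn with
  | nil =>
    intro c d h
    rw [at_nil] at h
    obtain ⟨p, _, h⟩ := h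
    exact absurd h (by simp)
  | append_singleton y a ih =>
    intro c d h h'
    rw [at_inr] at h h'
    rcases h with ⟨h1, h2⟩ | ⟨h1, p, h2, h3⟩
    · rcases h' with ⟨h1', h2'⟩ | ⟨h1', p', h2', h3'⟩
      · exact ⟨y, c, d, h2, h2', by omega⟩
      · rw [h1] at h1'
        exact absurd h1' (by simp)
    · rcases h' with ⟨h1', h2'⟩ | ⟨h1', p', h2', h3'⟩
      · rw [h1] at h1'
        exact absurd h1' (by simp)
      · obtain ⟨x, u, v, hu, hv, huv⟩ := ih p p' h2 h2'
        exact ⟨x, u, v, hu, hv, by omega⟩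

/-- the two extensions meet iff the two automata can be in the same state -/
theorem meet_iff {st st' : Set (Fin n)} {step step' : Fin n → Fin k ⊕ Fin 2 → Fin n → Prop} :
    (∃ z, z ∈ (ext st step).accepts ∧ z ∈ (ext st' step').accepts) ↔
      ∃ x p, At st step x (Sum.inl p) ∧ At st' step' x (Sum.inl p) := by
  constructor
  · rintro ⟨z, h, h'⟩
    rw [mem_accepts] at h h'
    obtain ⟨c, hc, h⟩ := h
    obtain ⟨d, hd, h'⟩ := h'
    obtain ⟨x, p, q, hp, hq, hpq⟩ := up_path z c d h h'
    have : p = q := Fin.ext (by omega)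
    subst this
    exact ⟨x, p, hp, hq⟩
  · rintro ⟨x, p, hp, hq⟩
    refine down (p : ℕ) (x ++ [(lc k).symm (Sum.inr 0)]) p rfl ?_ ?_
    · rw [at_inr]
      exact Or.inl ⟨by rw [Equiv.apply_symm_apply], hp⟩
    · rw [at_inr]
      exact Or.inl ⟨by rw [Equiv.apply_symm_apply], hq⟩

section pda

variable (M : PDA S (Fin k) (Fin n))

theorem sound (x : List (Fin (k + 2 + 2))) : ∀ p q, At M.start (stepA M) x (Sum.inl p) →
    At M.accept (stepB M) x (Sum.inl q) → ∃ w s, Up M w p s ∧ Fall M q s := by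
  induction x using List.reverseRecOn with
  | nil =>
    intro p q hp hq
    rw [at_nil] at hp hq
    obtain ⟨p', hp1, hp2⟩ := hp
    obtain ⟨q', hq1, hq2⟩ := hq
    rw [Sum.inl.injEq] at hp2 hq2
    subst hp2
    subst hq2
    exact ⟨[], [], Up.start p hp1, Fall.done q hq1⟩
  | append_singleton x a ih =>
    intro p q hp hq
    rw [at_inl] at hp hq
    obtain ⟨p', c, hp1, hp2, hp3⟩ := hp
    obtain ⟨q', c', hq1, hq2, hq3⟩ := hq
    rw [hp2, Sum.inl.injEq] at hq2
    subst hq2
    obtain ⟨w, s, h1, h2⟩ := ih p' q' hp1 hq1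
    rcases c with c | i
    · obtain ⟨a, ha⟩ := hp3
      obtain ⟨b, hb⟩ := hq3
      exact ⟨_, c :: s, Up.push w p' p a c s h1 ha, Fall.pop q q' b c s hb h2⟩
    · by_cases hi : i = 0
      · subst hi
        have h3 : ∃ a, M.neutral p' a p := by simpa [stepA] using hp3
        have h4 : q' = q := by simpa [stepB] using hq3
        obtain ⟨a, ha⟩ := h3
        subst h4
        exact ⟨_, s, Up.neutral w p' p a s h1 ha, h2⟩
      · have h3 : p' = p := by simpa [stepA, hi] using hp3
        have h4 : ∃ a, M.neutral q a q' := by simpa [stepB, hi] using hq3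
        obtain ⟨a, ha⟩ := h4
        subst h3
        exact ⟨w, s, h1, Fall.neutral q q' a s ha h2⟩

/-- both automata make a step -/
theorem both {x : List (Fin (k + 2 + 2))} {p p' q q' : Fin n} (c : Fin k ⊕ Fin 2)
    (hp : At M.start (stepA M) x (Sum.inl p)) (hq : At M.accept (stepB M) x (Sum.inl q))
    (h : stepA M p c p') (h' : stepB M q c q') :
    ∃ x, At M.start (stepA M) x (Sum.inl p') ∧ At M.accept (stepB M) x (Sum.inl q') := by
  refine ⟨x ++ [(lc k).symm (Sum.inl c)], ?_, ?_⟩
  · rw [at_inl]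
    exact ⟨p, c, hp, by rw [Equiv.apply_symm_apply], h⟩
  · rw [at_inl]
    exact ⟨q, c, hq, by rw [Equiv.apply_symm_apply], h'⟩

theorem complete {w : List S} {p : Fin n} {s : List (Fin k)} (hu : Up M w p s) :
    ∀ q, Fall M q s → ∃ x, At M.start (stepA M) x (Sum.inl p) ∧
      At M.accept (stepB M) x (Sum.inl q) := by
  induction hu with
  | start p₀ hp₀ =>
    have key : ∀ q s, Fall M q s → s = [] → ∃ x, At M.start (stepA M) x (Sum.inl p₀) ∧
        At M.accept (stepB M) x (Sum.inl q) := by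
      intro q s hf
      induction hf with
      | done f h =>
        intro _
        exact ⟨[], (at_nil _).mpr ⟨p₀, hp₀, rfl⟩, (at_nil _).mpr ⟨f, h, rfl⟩⟩
      | pop p q a c s hm h ih =>
        intro he
        exact absurd he (by simp)
      | neutral q q' a s hm h ih =>
        intro he
        obtain ⟨x, h1, h2⟩ := ih he
        exact both M (Sum.inr 1) h1 h2 (by simp [stepA]) (by simpa [stepB] using ⟨a, hm⟩)
    exact fun q hf => key q [] hf rfl
  | push w p p' a c s h hm ih =>
    have key : ∀ q t, Fall M q t → t = c :: s → ∃ x, At M.start (stepA M) x (Sum.inl p') ∧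
        At M.accept (stepB M) x (Sum.inl q) := by
      intro q t hf
      induction hf with
      | done f h =>
        intro he
        exact absurd he (by simp)
      | pop q q' b c' s' hm' h' ih' =>
        intro he
        rw [List.cons.injEq] at he
        obtain ⟨h1, h2⟩ := he
        subst h1
        subst h2
        obtain ⟨x, h1, h2⟩ := ih q' h'
        exact both M (Sum.inl c') h1 h2 ⟨a, hm⟩ ⟨b, hm'⟩
      | neutral q q' b s' hm' h' ih' =>
        intro he
        obtain ⟨x, h1, h2⟩ := ih' he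
        exact both M (Sum.inr 1) h1 h2 (by simp [stepA]) (by simpa [stepB] using ⟨b, hm'⟩)
    exact fun q hf => key q _ hf rfl
  | neutral w p p' a s h hm ih =>
    intro q hf
    obtain ⟨x, h1, h2⟩ := ih q hf
    exact both M (Sum.inr 0) h1 h2 (by simpa [stepA] using ⟨a, hm⟩) (by simp [stepB])

/-- `autA M` and `autB M` meet iff `M` accepts a word -/
theorem meet : (∃ w, Accepts M w) ↔ ∃ z, z ∈ (autA M).accepts ∧ z ∈ (autB M).accepts := by
  rw [accepts_iff]
  unfold autA autB
  rw [meet_iff]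
  constructor
  · rintro ⟨w, q, s, hu, hf⟩
    obtain ⟨x, h1, h2⟩ := complete M hu q hf
    exact ⟨x, q, h1, h2⟩
  · rintro ⟨x, p, h1, h2⟩
    obtain ⟨w, s, h3, h4⟩ := sound M x p p h1 h2
    exact ⟨w, p, s, h3, h4⟩

end pda

end CDET
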